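import Pool.Agent.Helper43_HAM.Stmts

/-!
# HAM, module HCB
-/

set_option autoImplicit false

namespace Pool.Agent.HAM.H48

open Equiv Pool.Agent.HAM

theorem hcb : HcbStmt := by
  intro D α σ h1 h2 h3
  refine ⟨?_, fun v => v.2, ?_⟩
  · rintro ⟨d, b⟩
    cases b with
    | false =>
      have e : (hgr α σ).neighborSet (d, false) = {(d, true), (α d, true), (σ d, true)} := by
        ext ⟨y, c⟩
        rw [SimpleGraph.mem_neighborSet]
        simp only [hgr, Set.mem_insert_iff, Set.mem_singleton_iff, Prod.mk.injEq]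
        constructor
        · rintro (⟨-, hc, h⟩ | ⟨-, hc, -⟩)
          · subst hc
            rcases h with h | h | h
            · exact Or.inl ⟨h, rfl⟩
            · exact Or.inr (Or.inl ⟨h, rfl⟩)
            · exact Or.inr (Or.inr ⟨h, rfl⟩)
          · exact absurd hc (by decide)
        · rintro (⟨h, rfl⟩ | ⟨h, rfl⟩ | ⟨h, rfl⟩)
          · exact Or.inl ⟨trivial, rfl, Or.inl h⟩
          · exact Or.inl ⟨trivial, rfl, Or.inr (Or.inl h)⟩
          · exact Or.inl ⟨trivial, rfl, Or.inr (Or.inr h)⟩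
      rw [e, Set.ncard_eq_three]
      refine ⟨_, _, _, ?_, ?_, ?_, rfl⟩
      · intro h; exact h1 d (Prod.mk.inj h).1.symm
      · intro h; exact h2 d (Prod.mk.inj h).1.symm
      · intro h; exact h3 d (Prod.mk.inj h).1
    | true =>
      have e : (hgr α σ).neighborSet (d, true) = {(d, false), (α⁻¹ d, false), (σ⁻¹ d, false)} := by
        ext ⟨y, c⟩
        rw [SimpleGraph.mem_neighborSet]
        simp only [hgr, Set.mem_insert_iff, Set.mem_singleton_iff, Prod.mk.injEq]
        constructor
        · rintro (⟨hc, -⟩ | ⟨hc, -, h⟩)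
          · exact absurd hc (by decide)
          · subst hc
            rcases h with h | h | h
            · exact Or.inl ⟨h.symm, rfl⟩
            · exact Or.inr (Or.inl ⟨by rw [h]; simp, rfl⟩)
            · exact Or.inr (Or.inr ⟨by rw [h]; simp, rfl⟩)
        · rintro (⟨h, rfl⟩ | ⟨h, rfl⟩ | ⟨h, rfl⟩)
          · exact Or.inr ⟨rfl, trivial, Or.inl h.symm⟩
          · exact Or.inr ⟨rfl, trivial, Or.inr (Or.inl (by rw [h]; simp))⟩
          · exact Or.inr ⟨rfl, trivial, Or.inr (Or.inr (by rw [h]; simp))⟩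
      rw [e, Set.ncard_eq_three]
      refine ⟨_, _, _, ?_, ?_, ?_, rfl⟩
      · intro h
        have h4 : d = α⁻¹ d := (Prod.mk.inj h).1
        apply h1 d
        conv_lhs => rw [h4]
        simp
      · intro h
        have h4 : d = σ⁻¹ d := (Prod.mk.inj h).1
        apply h2 d
        conv_lhs => rw [h4]
        simp
      · intro h
        have h4 : α⁻¹ d = σ⁻¹ d := (Prod.mk.inj h).1
        apply h3 (α⁻¹ d)
        conv_rhs => rw [h4]
        simp
  · rintro ⟨d, b⟩ ⟨d', b'⟩ (⟨e1, e2, -⟩ | ⟨e1, e2, -⟩)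
    · simp only at e1 e2 ⊢; rw [e1, e2]; decide
    · simp only at e1 e2 ⊢; rw [e1, e2]; decide

end Pool.Agent.HAM.H48
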