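import Pool.Agent.Helper43_HAM.Stmts

/-!
# HAM, module INC
-/

set_option autoImplicit false

namespace Pool.Agent.HAM.H48

open Pool.Agent.HAM Relation

/-- One of three disjoint sets misses `s`. -/
lemma exists_free {W : Type} (s : Finset W) (hs : s.card ≤ 2) (O : Fin 3 → Set W)
    (hO : ∀ i j z, z ∈ O i → z ∈ O j → i = j) : ∃ i, ∀ z ∈ O i, z ∉ s := by
  by_contra hcon
  push Not at hcon
  choose f hf1 hf2 using hcon
  have hinj : Function.Injective f := by
    intro i j h
    exact hO i j (f i) (hf1 i) (h ▸ hf1 j)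
  have := Finset.card_le_card_of_injOn f (s := (Finset.univ : Finset (Fin 3))) (t := s)
    (fun i _ => hf2 i) hinj.injOn
  rw [Finset.card_univ, Fintype.card_fin] at this
  omega

section

variable {V : Type} (G : SimpleGraph V) (x : V) (n : Fin 3 → V)

/-- Steps outside `s`. -/
def Q (s : Finset (V ⊕ Fin 3 × Bool)) (a b : V ⊕ Fin 3 × Bool) : Prop :=
  (ins G x n).Adj a b ∧ a ∉ s ∧ b ∉ s

variable {G x n} {s : Finset (V ⊕ Fin 3 × Bool)}

lemma Q_symm {a b : V ⊕ Fin 3 × Bool} (h : ReflTransGen (Q G x n s) a b) :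
    ReflTransGen (Q G x n s) b a := by
  induction h with
  | refl => exact ReflTransGen.refl
  | tail _ h2 ih => exact ReflTransGen.head ⟨h2.1.symm, h2.2.2, h2.2.1⟩ ih

lemma aXA (i : Fin 3) : (ins G x n).Adj (.inl x) (.inr (i, false)) := Or.inl ⟨rfl, rfl⟩

lemma aAX (i : Fin 3) : (ins G x n).Adj (.inr (i, false)) (.inl x) := Or.inl ⟨rfl, rfl⟩

lemma aAB {i j : Fin 3} (h : i ≠ j) : (ins G x n).Adj (.inr (i, false)) (.inr (j, true)) :=
  ⟨by decide, h⟩

lemma aBA {i j : Fin 3} (h : i ≠ j) : (ins G x n).Adj (.inr (i, true)) (.inr (j, false)) :=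
  ⟨by decide, h⟩

lemma aBN (i : Fin 3) : (ins G x n).Adj (.inr (i, true)) (.inl (n i)) := Or.inr ⟨rfl, rfl⟩

/-- Every inner vertex is connected to an outer vertex. -/
lemma inner (hn : Function.Injective n) (hx : ∀ i, n i ≠ x) (hs : s.card ≤ 2)
    (v : V ⊕ Fin 3 × Bool) (hv : v = .inl x ∨ ∃ p, v = .inr p) (hvs : v ∉ s) :
    ∃ i, Sum.inl (n i) ∉ s ∧ ReflTransGen (Q G x n s) v (.inl (n i)) := by
  rcases hv with rfl | ⟨⟨a, b⟩, rfl⟩
  · obtain ⟨i, hi⟩ := exists_free s hs
      (fun i => {z | z = .inr (i + 1, false) ∨ z = .inr (i, true) ∨ z = .inl (n i)}) (by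
        rintro i j z (rfl | rfl | rfl) (h | h | h)
        · simpa using h
        · simp at h
        · simp at h
        · simp at h
        · simpa using h
        · simp at h
        · simp at h
        · simp at h
        · exact hn (Sum.inl.inj h))
    have h1 := hi _ (Or.inl rfl)
    have h2 := hi _ (Or.inr (Or.inl rfl))
    have h3 := hi _ (Or.inr (Or.inr rfl))
    refine ⟨i, h3, ?_⟩
    refine ReflTransGen.head ⟨aXA _, hvs, h1⟩ (ReflTransGen.head ⟨aAB ?_, h1, h2⟩
      (ReflTransGen.single ⟨aBN _, h2, h3⟩))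
    clear * -
    revert i; decide
  · cases b with
    | false =>
      obtain ⟨i, hi⟩ := exists_free s hs
        (fun i => {z | z = .inl (n i) ∨ z = .inr (i, true) ∨ (i = a ∧ (z = .inl x ∨
          z = .inr (a + 1, false)))}) (by
        have hxn : ∀ i, x ≠ n i := fun i => (hx i).symm
        rintro i j z (rfl | rfl | ⟨rfl, rfl | rfl⟩) (h | h | ⟨rfl, h | h⟩)
        · exact hn (Sum.inl.inj h)
        · simp at h
        · exact absurd (Sum.inl.inj h) (hx _)
        · simp at h
        · simp at h
        · simpa using h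
        · simp at h
        · simp at h
        · exact absurd (Sum.inl.inj h) (hxn _)
        · simp at h
        · rfl
        · rfl
        · simp at h
        · simp at h
        · rfl
        · rfl)
      have h3 := hi _ (Or.inl rfl)
      have h2 := hi _ (Or.inr (Or.inl rfl))
      refine ⟨i, h3, ?_⟩
      by_cases hia : i = a
      · have h4 := hi _ (Or.inr (Or.inr ⟨hia, Or.inl rfl⟩))
        have h5 := hi _ (Or.inr (Or.inr ⟨hia, Or.inr rfl⟩))
        refine ReflTransGen.head ⟨aAX _, hvs, h4⟩ (ReflTransGen.head ⟨aXA _, h4, h5⟩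
          (ReflTransGen.head ⟨aAB ?_, h5, h2⟩ (ReflTransGen.single ⟨aBN _, h2, h3⟩)))
        rw [hia]
        clear * -
        revert a; decide
      · exact ReflTransGen.head ⟨aAB (Ne.symm hia), hvs, h2⟩
          (ReflTransGen.single ⟨aBN _, h2, h3⟩)
    | true =>
      obtain ⟨i, hi⟩ := exists_free s hs
        (fun i => {z | z = .inl (n i) ∨ (i ≠ a ∧ (z = .inr (i, true) ∨
          z = .inr (-(a + i), false)))}) (by
        rintro i j z (rfl | ⟨hia, rfl | rfl⟩) (h | ⟨hja, h | h⟩)
        · exact hn (Sum.inl.inj h)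
        · simp at h
        · simp at h
        · simp at h
        · simpa using h
        · simp at h
        · simp at h
        · simp at h
        · simpa using h)
      have h3 := hi _ (Or.inl rfl)
      refine ⟨i, h3, ?_⟩
      by_cases hia : i = a
      · subst hia
        exact ReflTransGen.single ⟨aBN _, hvs, h3⟩
      · have h4 := hi _ (Or.inr ⟨hia, Or.inl rfl⟩)
        have h5 := hi _ (Or.inr ⟨hia, Or.inr rfl⟩)
        refine ReflTransGen.head ⟨aBA ?_, hvs, h5⟩ (ReflTransGen.head ⟨aAB ?_, h5, h4⟩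
          (ReflTransGen.single ⟨aBN _, h4, h3⟩))
        · clear * - hia
          revert a i; decide
        · clear * - hia
          revert a i; decide

end

theorem inc : IncStmt := by
  classical
  intro V _ G x n hn hN hG
  have hxN : ∀ i, G.Adj x (n i) := by
    intro i
    have : n i ∈ G.neighborSet x := by rw [hN]; exact ⟨i, rfl⟩
    exact this
  have hx : ∀ i, n i ≠ x := fun i => (hxN i).ne'
  have hxn : ∀ y, G.Adj x y → ∃ i, n i = y := by
    intro y hy
    have : y ∈ Set.range n := by rw [← hN]; exact hy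
    exact this
  refine ⟨?_, ?_⟩
  · rw [Nat.card_sum]
    have := hG.1
    omega
  intro s hs
  -- a vertex of `V` in `s`
  obtain ⟨s', hs'⟩ : ∃ s' : Finset V, ∀ v, v ∈ s' ↔ Sum.inl v ∈ s := by
    refine ⟨s.preimage Sum.inl Sum.inl_injective.injOn, fun v => by simp⟩
  -- the key claim: all outer vertices are connected
  have key : ∃ T : Finset V, T.card ≤ 2 ∧ (∀ v ∈ T, v = x ∨ v ∈ s') ∧ (∀ v ∈ s', v ∈ T) ∧
      ∀ u v : V, u ∉ T → v ∉ T → G.Adj u v → ReflTransGen (Q G x n s) (.inl u) (.inl v) := by
    by_cases hin : x ∈ s' ∨ ∃ p, Sum.inr p ∈ s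
    · refine ⟨insert x s', ?_, ?_, ?_, ?_⟩
      · have hc : s'.card ≤ s.card := Finset.card_le_card_of_injOn Sum.inl
          (fun v hv => (hs' v).1 hv) Sum.inl_injective.injOn
        by_cases hx' : x ∈ s'
        · rw [Finset.insert_eq_of_mem hx']; omega
        · obtain ⟨p, hp⟩ := hin.resolve_left hx'
          have hc2 : (insert (Sum.inr p) (s'.image Sum.inl) : Finset (V ⊕ Fin 3 × Bool)).card ≤
              s.card := by
            apply Finset.card_le_card
            intro z hz
            rw [Finset.mem_insert] at hz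
            rcases hz with rfl | hz
            · exact hp
            · obtain ⟨v, hv, rfl⟩ := Finset.mem_image.1 hz
              exact (hs' v).1 hv
          rw [Finset.card_insert_of_notMem (by simp),
            Finset.card_image_of_injective _ Sum.inl_injective] at hc2
          rw [Finset.card_insert_of_notMem hx']
          omega
      · intro v hv
        exact Finset.mem_insert.1 hv
      · intro v hv; exact Finset.mem_insert_of_mem hv
      · intro u v hu hv huv
        rw [Finset.mem_insert, not_or] at hu hv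
        refine ReflTransGen.single ⟨⟨huv, hu.1, hv.1⟩, ?_, ?_⟩
        · exact fun h => hu.2 ((hs' u).2 h)
        · exact fun h => hv.2 ((hs' v).2 h)
    · push Not at hin
      obtain ⟨hx1, hx2⟩ := hin
      have hxs : Sum.inl x ∉ s := fun h => hx1 ((hs' x).2 h)
      have hxv : ∀ i, Sum.inl (n i) ∉ s → ReflTransGen (Q G x n s) (.inl x) (.inl (n i)) := by
        intro i hi
        refine ReflTransGen.head ⟨aXA (i + 1), hxs, hx2 _⟩ (ReflTransGen.head ⟨aAB ?_, hx2 _, hx2 _⟩
          (ReflTransGen.single ⟨aBN i, hx2 _, hi⟩))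
        clear * -
        revert i; decide
      refine ⟨s', ?_, fun v hv => Or.inr hv, fun v hv => hv, ?_⟩
      · have hc : s'.card ≤ s.card := Finset.card_le_card_of_injOn Sum.inl
          (fun v hv => (hs' v).1 hv) Sum.inl_injective.injOn
        omega
      · intro u v hu hv huv
        by_cases hux : u = x
        · subst hux
          obtain ⟨i, rfl⟩ := hxn v huv
          exact hxv i (fun h => hv ((hs' _).2 h))
        · by_cases hvx : v = x
          · subst hvx
            obtain ⟨i, rfl⟩ := hxn u huv.symm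
            exact Q_symm (hxv i (fun h => hu ((hs' _).2 h)))
          · exact ReflTransGen.single ⟨⟨huv, hux, hvx⟩, fun h => hu ((hs' u).2 h),
              fun h => hv ((hs' v).2 h)⟩
  obtain ⟨T, hT1, hT2, hT3, hT4⟩ := key
  have hTc := hG.2 T hT1
  have hout : ∀ u v : V, u ∉ T → v ∉ T → ReflTransGen (Q G x n s) (.inl u) (.inl v) := by
    intro u v hu hv
    have h1 := hTc.preconnected ⟨u, hu⟩ ⟨v, hv⟩
    rw [SimpleGraph.reachable_iff_reflTransGen] at h1
    have h2 : ∀ a b : {v // v ∈ {v | v ∉ T}}, ReflTransGen (G.induce {v | v ∉ T}).Adj a b →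
        ReflTransGen (Q G x n s) (.inl a.1) (.inl b.1) := by
      intro a b h
      induction h with
      | refl => exact ReflTransGen.refl
      | tail _ h4 ih =>
        rename_i b c _
        exact ih.trans (hT4 b.1 c.1 (show b.1 ∉ T from b.2) (show c.1 ∉ T from c.2) h4)
    exact h2 _ _ h1
  -- every vertex is connected to a vertex outside `T`
  have hall : ∀ v : V ⊕ Fin 3 × Bool, v ∉ s → ∃ u, u ∉ T ∧
      ReflTransGen (Q G x n s) v (.inl u) := by
    intro v hv
    by_cases hin : v = .inl x ∨ ∃ p, v = .inr p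
    · obtain ⟨i, hi1, hi2⟩ := inner (G := G) hn hx hs v hin hv
      refine ⟨n i, ?_, hi2⟩
      intro h
      rcases hT2 _ h with h | h
      · exact hx i h
      · exact hi1 ((hs' _).1 h)
    · rw [not_or] at hin
      rcases v with v | p
      · refine ⟨v, ?_, ReflTransGen.refl⟩
        intro h
        rcases hT2 _ h with h | h
        · exact hin.1 (by rw [h])
        · exact hv ((hs' _).1 h)
      · exact absurd ⟨p, rfl⟩ hin.2
  have hconv : ∀ a b : V ⊕ Fin 3 × Bool, ReflTransGen (Q G x n s) a b → ∀ (ha : a ∉ s) (hb : b ∉ s),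
      ((ins G x n).induce {v | v ∉ s}).Reachable ⟨a, ha⟩ ⟨b, hb⟩ := by
    intro a b h
    induction h with
    | refl => intro ha hb; exact SimpleGraph.Reachable.refl _
    | tail _ h2 ih =>
      intro ha hb
      refine (ih ha h2.2.1).trans ?_
      apply SimpleGraph.Adj.reachable
      exact h2.1
  rw [SimpleGraph.connected_iff]
  refine ⟨?_, ?_⟩
  · rintro ⟨a, ha⟩ ⟨b, hb⟩
    obtain ⟨u, hu, h1⟩ := hall a ha
    obtain ⟨v, hv, h2⟩ := hall b hb
    exact hconv a b ((h1.trans (hout u v hu hv)).trans (Q_symm h2)) ha hb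
  · obtain ⟨⟨u, hu⟩⟩ := hTc.nonempty
    exact ⟨⟨.inl u, fun h => hu (hT3 u ((hs' u).2 h))⟩⟩

end Pool.Agent.HAM.H48
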